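import Mathlib

/-!
# MP_407c22_co: alternate scaling that terminates does so after at most two scalings
-/

open Finset

namespace Pool.Agent.Results.MP_407c22_co.AtMostTwo

variable {n : ℕ}

/-- All entries are positive. -/
def IsPositive (A : Matrix (Fin n) (Fin n) ℝ) : Prop := ∀ i j, 0 < A i j

/-- Every row sums to `1`. -/
def RowStochastic (A : Matrix (Fin n) (Fin n) ℝ) : Prop := ∀ i, ∑ j, A i j = 1

/-- Every column sums to `1`. -/
def ColStochastic (A : Matrix (Fin n) (Fin n) ℝ) : Prop := ∀ j, ∑ i, A i j = 1

/-- Every row and every column sums to `1`. -/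
def DoublyStochastic (A : Matrix (Fin n) (Fin n) ℝ) : Prop := RowStochastic A ∧ ColStochastic A

/-- The row scaling `R(A)`: every row is divided by its sum. -/
noncomputable def rowScale (A : Matrix (Fin n) (Fin n) ℝ) : Matrix (Fin n) (Fin n) ℝ :=
  fun i j => A i j / ∑ k, A i k

/-- The column scaling `C(A)`: every column is divided by its sum. -/
noncomputable def colScale (A : Matrix (Fin n) (Fin n) ℝ) : Matrix (Fin n) (Fin n) ℝ :=
  fun i j => A i j / ∑ k, A k j

/-- The alternate scaling sequence `A_0 = A`, `A_{2k+1} = R(A_{2k})`, `A_{2k+2} = C(A_{2k+1})`. -/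
noncomputable def altSeq (A : Matrix (Fin n) (Fin n) ℝ) : ℕ → Matrix (Fin n) (Fin n) ℝ
  | 0 => A
  | k + 1 => if Even k then rowScale (altSeq A k) else colScale (altSeq A k)

open Classical in
/-- `A` requires exactly `L` scalings: some term of the alternate scaling sequence is doubly
stochastic and, if `N` is the least index of such a term, then `L` is the number of indices
`k` with `1 ≤ k ≤ N` and `A_k ≠ A_{k-1}`. -/
def RequiresExactly (A : Matrix (Fin n) (Fin n) ℝ) (L : ℕ) : Prop :=
  ∃ N : ℕ, DoublyStochastic (altSeq A N) ∧ (∀ m < N, ¬ DoublyStochastic (altSeq A m)) ∧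
    L = ((Finset.Icc 1 N).filter (fun k => altSeq A k ≠ altSeq A (k - 1))).card

theorem row_sum_pos {A : Matrix (Fin n) (Fin n) ℝ} (hA : IsPositive A) (i : Fin n) :
    0 < ∑ k, A i k := Finset.sum_pos (fun k _ => hA i k) ⟨i, Finset.mem_univ i⟩

theorem col_sum_pos {A : Matrix (Fin n) (Fin n) ℝ} (hA : IsPositive A) (j : Fin n) :
    0 < ∑ k, A k j := Finset.sum_pos (fun k _ => hA k j) ⟨j, Finset.mem_univ j⟩

theorem rowScale_pos {A : Matrix (Fin n) (Fin n) ℝ} (hA : IsPositive A) :
    IsPositive (rowScale A) := fun i j => div_pos (hA i j) (row_sum_pos hA i)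

theorem colScale_pos {A : Matrix (Fin n) (Fin n) ℝ} (hA : IsPositive A) :
    IsPositive (colScale A) := fun i j => div_pos (hA i j) (col_sum_pos hA j)

theorem rowScale_stochastic {A : Matrix (Fin n) (Fin n) ℝ} (hA : IsPositive A) :
    RowStochastic (rowScale A) := by
  intro i
  unfold rowScale
  rw [← Finset.sum_div]
  exact div_self (row_sum_pos hA i).ne'

theorem colScale_stochastic {A : Matrix (Fin n) (Fin n) ℝ} (hA : IsPositive A) :
    ColStochastic (colScale A) := by
  intro j
  unfold colScale
  rw [← Finset.sum_div]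
  exact div_self (col_sum_pos hA j).ne'

theorem altSeq_pos {A : Matrix (Fin n) (Fin n) ℝ} (hA : IsPositive A) (k : ℕ) :
    IsPositive (altSeq A k) := by
  induction k with
  | zero => exact hA
  | succ k ih =>
    rw [altSeq]
    split_ifs
    · exact rowScale_pos ih
    · exact colScale_pos ih

/-- Key step: if `P` is positive and column stochastic and `C(R(P))` is row stochastic, then `R(P)`
is already column stochastic (arithmetic-harmonic mean inequality for its column sums). -/
theorem key {P : Matrix (Fin n) (Fin n) ℝ} (hP : IsPositive P) (hc : ColStochastic P)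
    (hD : RowStochastic (colScale (rowScale P))) : ColStochastic (rowScale P) := by
  set Q := rowScale P with hQ
  have hQpos : IsPositive Q := rowScale_pos hP
  have hQrow : RowStochastic Q := rowScale_stochastic hP
  set r : Fin n → ℝ := fun i => ∑ j, P i j with hr
  set c : Fin n → ℝ := fun j => ∑ i, Q i j with hcdef
  have hcpos : ∀ j, 0 < c j := fun j => col_sum_pos hQpos j
  have hrpos : ∀ i, 0 < r i := fun i => row_sum_pos hP i
  have hPQ : ∀ i j, P i j = r i * Q i j := by
    intro i j
    have : Q i j = P i j / r i := rfl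
    rw [this, mul_div_cancel₀ _ (hrpos i).ne']
  have h1 : ∑ j, (c j)⁻¹ = n := by
    calc ∑ j, (c j)⁻¹ = ∑ j, (∑ i, P i j) * (c j)⁻¹ := by
          refine Finset.sum_congr rfl fun j _ => ?_
          rw [hc j, one_mul]
      _ = ∑ j, ∑ i, r i * (Q i j / c j) := by
          refine Finset.sum_congr rfl fun j _ => ?_
          rw [Finset.sum_mul]
          refine Finset.sum_congr rfl fun i _ => ?_
          rw [hPQ i j]; ring
      _ = ∑ i, ∑ j, r i * (Q i j / c j) := Finset.sum_comm
      _ = ∑ i, r i := by
          refine Finset.sum_congr rfl fun i _ => ?_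
          rw [← Finset.mul_sum]
          have : ∑ j, Q i j / c j = 1 := hD i
          rw [this, mul_one]
      _ = ∑ j, ∑ i, P i j := Finset.sum_comm
      _ = n := by
          rw [Finset.sum_congr rfl fun j _ => hc j]
          simp
  have h2 : ∑ j, c j = n := by
    rw [hcdef]
    change ∑ j, ∑ i, Q i j = n
    rw [Finset.sum_comm, Finset.sum_congr rfl fun i _ => hQrow i]
    simp
  have h3 : ∑ j, (c j + (c j)⁻¹ - 2) = 0 := by
    rw [Finset.sum_sub_distrib, Finset.sum_add_distrib, h1, h2]
    simp
    ring
  have h4 : ∀ j, 0 ≤ c j + (c j)⁻¹ - 2 := by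
    intro j
    have : c j + (c j)⁻¹ - 2 = (c j - 1) ^ 2 / c j := by
      field_simp [(hcpos j).ne']
      ring
    rw [this]
    exact div_nonneg (sq_nonneg _) (hcpos j).le
  intro j
  have h5 := (Finset.sum_eq_zero_iff_of_nonneg fun j _ => h4 j).1 h3 j (Finset.mem_univ j)
  have h6 : c j + (c j)⁻¹ - 2 = (c j - 1) ^ 2 / c j := by
    field_simp [(hcpos j).ne']
    ring
  rw [h6, div_eq_zero_iff] at h5
  rcases h5 with h5 | h5
  · have : c j - 1 = 0 := pow_eq_zero_iff (two_ne_zero) |>.1 h5
    change c j = 1
    linarith
  · exact absurd h5 (hcpos j).ne'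

theorem rowScale_transpose (A : Matrix (Fin n) (Fin n) ℝ) :
    rowScale A.transpose = (colScale A).transpose := rfl

theorem colScale_transpose (A : Matrix (Fin n) (Fin n) ℝ) :
    colScale A.transpose = (rowScale A).transpose := rfl

/-- The transposed key step. -/
theorem key' {P : Matrix (Fin n) (Fin n) ℝ} (hP : IsPositive P) (hc : RowStochastic P)
    (hD : ColStochastic (rowScale (colScale P))) : RowStochastic (colScale P) := by
  have := key (P := P.transpose) (fun i j => hP j i) hc
  rw [rowScale_transpose, colScale_transpose] at this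
  exact this hD

/-- **Main theorem.** A positive `n × n` matrix whose alternate scaling sequence reaches a doubly
stochastic matrix requires at most two scalings. -/
theorem result (n : ℕ) (A : Matrix (Fin n) (Fin n) ℝ) (hA : IsPositive A) (L : ℕ)
    (hL : RequiresExactly A L) : L ≤ 2 := by
  obtain ⟨N, hN, hmin, rfl⟩ := hL
  have hN2 : N ≤ 2 := by
    by_contra hlt
    obtain ⟨m, rfl⟩ : ∃ m, N = m + 3 := ⟨N - 3, by omega⟩
    apply hmin (m + 2) (by omega)
    have hp0 := altSeq_pos hA m
    have hp := altSeq_pos hA (m + 1)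
    by_cases hev : Even m
    · -- `A_{m+1}` row stochastic, `A_{m+2} = C(A_{m+1})`, `A_{m+3} = R(A_{m+2})`
      have e1 : altSeq A (m + 1) = rowScale (altSeq A m) := by rw [altSeq, if_pos hev]
      have ho : ¬ Even (m + 1) := by rw [Nat.even_add_one]; simpa using hev
      have e2 : altSeq A (m + 2) = colScale (altSeq A (m + 1)) := by
        rw [show m + 2 = (m + 1) + 1 from rfl, altSeq, if_neg ho]
      have he : Even (m + 2) := by rw [Nat.even_add_one]; exact ho
      have e3 : altSeq A (m + 3) = rowScale (altSeq A (m + 2)) := by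
        rw [show m + 3 = (m + 2) + 1 from rfl, altSeq, if_pos he]
      have hrow : RowStochastic (altSeq A (m + 1)) := by rw [e1]; exact rowScale_stochastic hp0
      have h3 : ColStochastic (rowScale (colScale (altSeq A (m + 1)))) := by
        rw [← e2, ← e3]; exact hN.2
      refine ⟨?_, ?_⟩
      · rw [e2]; exact key' hp hrow h3
      · rw [e2]; exact colScale_stochastic hp
    · have e1 : altSeq A (m + 1) = colScale (altSeq A m) := by rw [altSeq, if_neg hev]
      have he : Even (m + 1) := by rw [Nat.even_add_one]; exact hev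
      have e2 : altSeq A (m + 2) = rowScale (altSeq A (m + 1)) := by
        rw [show m + 2 = (m + 1) + 1 from rfl, altSeq, if_pos he]
      have ho : ¬ Even (m + 2) := by rw [Nat.even_add_one]; simpa using he
      have e3 : altSeq A (m + 3) = colScale (altSeq A (m + 2)) := by
        rw [show m + 3 = (m + 2) + 1 from rfl, altSeq, if_neg ho]
      have hcol : ColStochastic (altSeq A (m + 1)) := by rw [e1]; exact colScale_stochastic hp0
      have h3 : RowStochastic (colScale (rowScale (altSeq A (m + 1)))) := by
        rw [← e2, ← e3]; exact hN.1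
      refine ⟨?_, ?_⟩
      · rw [e2]; exact rowScale_stochastic hp
      · rw [e2]; exact key hp hcol h3
  refine (Finset.card_filter_le _ _).trans ?_
  simpa using hN2

end Pool.Agent.Results.MP_407c22_co.AtMostTwo
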